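import Pool.Agent.Helper69.MH.MainBound
import Pool.Agent.Helper69.MH.Asym
import Pool.Agent.Helper69.MH.ChainLower

/-!
MP_499f6d_pr, Q1: the conjunction of (a), (b) and (c) is true.

The definitions (`S`, `g`, `IsTarget`, `IsProposal`, `coin`, `mhStep`, `expect`, `targetMoment`,
`jumpMoment`, `s`) are in `Pool/Agent/Helper69/MH/Basic.lean` and
`Pool/Agent/Helper69/MH/Chain.lean`.
-/

namespace Pool.Agent.Results.MP_499f6d_pr.CrossingPoints

open Pool.Agent.Helper69.MH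
open Filter Topology

lemma s_le_of_max {r : ℝ} (hr : 1 ≤ r) {k : ℕ} (hmax : ∀ j, 1 ≤ j → g j r ≤ g k r) :
    s r ≤ ENNReal.ofReal (g k r) := by
  apply s_le (by linarith)
  intro m n hn hnm
  obtain ⟨j, hj, hle⟩ := main_bound hr hn hnm
  exact hle.trans (mul_le_mul_of_nonneg_right (hmax j hj) (S_nonneg m r))

lemma s_eq_of_max {r : ℝ} (hr : 1 ≤ r) {k : ℕ} (hk : 1 ≤ k)
    (hmax : ∀ j, 1 ≤ j → g j r ≤ g k r) : s r = ENNReal.ofReal (g k r) :=
  le_antisymm (s_le_of_max hr hmax) (le_s (by linarith) hk)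

lemma ofReal_g_ne {r : ℝ} {j k : ℕ} (hk : 1 ≤ k) (h : g j r < g k r) :
    ENNReal.ofReal (g k r) ≠ ENNReal.ofReal (g j r) :=
  ((ENNReal.ofReal_lt_ofReal_iff (g_pos hk r)).mpr h).ne'

/-- **MP_499f6d_pr, Q1**: statements (a), (b), (c) all hold. -/
theorem result : ∃ ρ : ℕ → ℝ,
    -- (a)
    (∀ k : ℕ, 1 ≤ k → ∀ r : ℝ, g k r = g (k + 1) r ↔ r = ρ k) ∧
    ρ 1 = 1 ∧
    (∀ k : ℕ, 1 ≤ k → 1 ≤ ρ k) ∧
    (∀ k : ℕ, 1 ≤ k → ρ k < ρ (k + 1)) ∧
    Tendsto ρ atTop atTop ∧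
    Tendsto (fun k : ℕ => ρ k / ((k : ℝ) * Real.log 3)) atTop (𝓝 1) ∧
    -- (b)
    (∀ k : ℕ, 2 ≤ k → ∀ r : ℝ, ρ (k - 1) < r → r < ρ k →
      s r = ENNReal.ofReal (g k r) ∧
        ∀ j : ℕ, 1 ≤ j → j ≠ k → s r ≠ ENNReal.ofReal (g j r)) ∧
    -- (c)
    (∀ k : ℕ, 1 ≤ k → ∀ j : ℕ, 1 ≤ j →
      (s (ρ k) = ENNReal.ofReal (g j (ρ k)) ↔ j = k ∨ j = k + 1)) := by
  refine ⟨rho, ?_, rho_one, fun k hk => one_le_rho hk, fun k hk => rho_lt_succ hk,
    tendsto_rho_atTop, tendsto_rho, ?_, ?_⟩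
  · intro k hk r
    constructor
    · exact fun h => eq_rho hk h
    · rintro rfl
      exact g_rho hk
  · intro k hk r h1 h2
    have hr1 : 1 ≤ r := (one_le_rho (k := k - 1) (by omega)).trans h1.le
    have hmax := g_strict_max hk h1 h2
    have heq : s r = ENNReal.ofReal (g k r) := by
      apply s_eq_of_max hr1 (by omega)
      intro j hj
      rcases eq_or_ne j k with h | h
      · rw [h]
      · exact (hmax j hj h).le
    refine ⟨heq, fun j hj hjk => ?_⟩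
    rw [heq]
    exact ofReal_g_ne (by omega) (hmax j hj hjk)
  · intro k hk j hj
    have hmax := g_max_at_rho hk
    have heq : s (rho k) = ENNReal.ofReal (g k (rho k)) := by
      apply s_eq_of_max (one_le_rho hk) hk
      intro i hi
      rcases eq_or_ne i k with h | h
      · rw [h]
      · rcases eq_or_ne i (k + 1) with h' | h'
        · rw [h', g_rho hk]
        · exact (hmax i hi h h').le
    rw [heq]
    constructor
    · intro h
      by_contra hne
      push Not at hne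
      exact ofReal_g_ne hk (hmax j hj hne.1 hne.2) h
    · rintro (h | h)
      · rw [h]
      · rw [h, g_rho hk]

end Pool.Agent.Results.MP_499f6d_pr.CrossingPoints
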